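import Pool.Agent.H133R3.ParForm

set_option autoImplicit false

open MeasureTheory FourierTransform SchwartzMap LineDeriv
open scoped ENNReal ComplexConjugate

namespace Pool.Agent.H133R3.Par

theorem integrable_box : Integrable (fun X : ST => (1 + (X 0) ^ 2)⁻¹ * (1 + (X 1) ^ 2)⁻¹) volume := by
  have h0 : Integrable (fun x : Fin 2 → ℝ => ∏ i, (1 + (x i) ^ 2)⁻¹) (Measure.pi fun _ => volume) :=
    Integrable.fintype_prod (f := fun _ : Fin 2 => fun x : ℝ => (1 + x ^ 2)⁻¹) (fun _ => integrable_inv_one_add_sq)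
  have h1 := (PiLp.volume_preserving_ofLp (Fin 2)).integrable_comp_of_integrable h0
  refine h1.congr ?_
  filter_upwards with X
  simp [Fin.prod_univ_two, mul_comm]

theorem memLp_of_box {F : ST → ℂ} (hF : AEStronglyMeasurable F volume) {C : ℝ}
    (hC : ∀ X, ‖F X‖ ≤ C * ((1 + (X 0) ^ 2)⁻¹ * (1 + (X 1) ^ 2)⁻¹)) {p : ℝ} (hp : 1 ≤ p) :
    MemLp F (ENNReal.ofReal p) volume := by
  have hp0 : ENNReal.ofReal p ≠ 0 := by
    simp only [ne_eq, ENNReal.ofReal_eq_zero, not_le]; linarith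
  have hpt : ENNReal.ofReal p ≠ ∞ := ENNReal.ofReal_ne_top
  rw [← integrable_norm_rpow_iff hF hp0 hpt, ENNReal.toReal_ofReal (by linarith)]
  have hC0 : 0 ≤ C := by
    have := hC 0
    simp at this
    exact (norm_nonneg _).trans this
  have hi := integrable_box.const_mul (C ^ p)
  apply hi.mono
  · exact (hF.norm.aemeasurable.pow_const p).aestronglyMeasurable
  · filter_upwards with X
    have hb0 : 0 ≤ (1 + (X 0) ^ 2)⁻¹ * (1 + (X 1) ^ 2)⁻¹ := by positivity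
    have hb1 : (1 + (X 0) ^ 2)⁻¹ * (1 + (X 1) ^ 2)⁻¹ ≤ 1 := by
      have h1 : (1 + (X 0) ^ 2)⁻¹ ≤ 1 := inv_le_one_of_one_le₀ (by nlinarith [sq_nonneg (X 0)])
      have h2 : (1 + (X 1) ^ 2)⁻¹ ≤ 1 := inv_le_one_of_one_le₀ (by nlinarith [sq_nonneg (X 1)])
      calc (1 + (X 0) ^ 2)⁻¹ * (1 + (X 1) ^ 2)⁻¹ ≤ 1 * 1 := mul_le_mul h1 h2 (by positivity) (by norm_num)
        _ = 1 := by norm_num
    rw [Real.norm_of_nonneg (by positivity), Real.norm_of_nonneg (by positivity)]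
    calc ‖F X‖ ^ p ≤ (C * ((1 + (X 0) ^ 2)⁻¹ * (1 + (X 1) ^ 2)⁻¹)) ^ p :=
          Real.rpow_le_rpow (norm_nonneg _) (hC X) (by linarith)
      _ = C ^ p * ((1 + (X 0) ^ 2)⁻¹ * (1 + (X 1) ^ 2)⁻¹) ^ p := Real.mul_rpow hC0 hb0
      _ ≤ C ^ p * ((1 + (X 0) ^ 2)⁻¹ * (1 + (X 1) ^ 2)⁻¹) := by
          apply mul_le_mul_of_nonneg_left _ (by positivity)
          calc ((1 + (X 0) ^ 2)⁻¹ * (1 + (X 1) ^ 2)⁻¹) ^ p ≤ ((1 + (X 0) ^ 2)⁻¹ * (1 + (X 1) ^ 2)⁻¹) ^ (1 : ℝ) :=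
                Real.rpow_le_rpow_of_exponent_ge' hb0 hb1 (by norm_num) hp
            _ = _ := Real.rpow_one _

theorem memLp_two_of_box {F : ST → ℂ} (hF : AEStronglyMeasurable F volume) {C : ℝ}
    (hC : ∀ X, ‖F X‖ ≤ C * ((1 + (X 0) ^ 2)⁻¹ * (1 + (X 1) ^ 2)⁻¹)) : MemLp F 2 volume := by
  have := memLp_of_box hF hC (p := 2) (by norm_num)
  simpa using this

theorem exp_neg_le_inv {k : ℝ} (hk : 0 < k) (x : ℝ) :
    Real.exp (- (|x| / k)) ≤ (1 + 2 * k ^ 2) * (1 + x ^ 2)⁻¹ := by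
  rw [Real.exp_neg, ← div_eq_mul_inv, inv_le_comm₀ (Real.exp_pos _) (by positivity), inv_div]
  have h1 := Real.quadratic_le_exp_of_nonneg (by positivity : 0 ≤ |x| / k)
  refine le_trans ?_ h1
  rw [div_le_iff₀ (by positivity)]
  have h2 : (|x| / k) ^ 2 = x ^ 2 / k ^ 2 := by rw [div_pow, sq_abs]
  have h3 : 0 ≤ |x| / k := by positivity
  rw [h2]
  have h4 : x ^ 2 / k ^ 2 / 2 * (2 * k ^ 2) = x ^ 2 := by field_simp
  have h5 : 0 ≤ x ^ 2 / k ^ 2 := by positivity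
  nlinarith [mul_nonneg h3 (by positivity : (0:ℝ) ≤ 2 * k ^ 2)]

theorem weakD_of_hasLineDerivAt {F F' : ST → ℂ} {m : ST} (hF : MemLp F 2 volume) (hF' : MemLp F' 2 volume)
    (hd : ∀ X, HasLineDerivAt ℝ F (F' X) X m) : WeakD m (hF.toLp F) (hF'.toLp F') := by
  intro ψ
  have e1 : ∫ x, ψ x • (hF'.toLp F') x = ∫ x, ψ x * F' x := by
    apply integral_congr_ae
    filter_upwards [hF'.coeFn_toLp] with x hx
    rw [hx, smul_eq_mul]
  have e2 : ∫ x, (∂_{m} ψ) x • (hF.toLp F) x = ∫ x, (∂_{m} ψ) x * F x := by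
    apply integral_congr_ae
    filter_upwards [hF.coeFn_toLp] with x hx
    rw [hx, smul_eq_mul]
  rw [e1, e2]
  have hψ : MemLp (fun x => ψ x) 2 (volume : Measure ST) := ψ.memLp 2
  have hψ' : MemLp (fun x => (∂_{m} ψ : 𝓢(ST, ℂ)) x) 2 (volume : Measure ST) := (∂_{m} ψ : 𝓢(ST, ℂ)).memLp 2
  have i1 : Integrable (fun x => ψ x * F' x) volume := MemLp.integrable_mul (p := 2) (q := 2) hψ hF'
  have i2 : Integrable (fun x => (∂_{m} ψ : 𝓢(ST, ℂ)) x * F x) volume := MemLp.integrable_mul (p := 2) (q := 2) hψ' hF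
  have i3 : Integrable (fun x => ψ x * F x) volume := MemLp.integrable_mul (p := 2) (q := 2) hψ hF
  have hψd : ∀ x, HasLineDerivAt ℝ (fun x => ψ x) ((∂_{m} ψ : 𝓢(ST, ℂ)) x) x m := by
    intro x
    have h1 := (ψ.differentiableAt (x := x)).hasFDerivAt.hasLineDerivAt m
    have h2 : (∂_{m} ψ : 𝓢(ST, ℂ)) x = fderiv ℝ (fun x => ψ x) x m := by
      simp [SchwartzMap.lineDerivOp_apply_eq_fderiv]
    rw [h2]
    exact h1
  exact integral_bilinear_hasLineDerivAt_right_eq_neg_left_of_integrable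
    (B := ContinuousLinearMap.mul ℝ ℂ) (μ := volume) i2 i1 i3 (fun x _ => hψd x) (fun x _ => hd x)

end Pool.Agent.H133R3.Par
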