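import Pool.Agent.H133R3.ParSol

set_option autoImplicit false

open MeasureTheory
open scoped ENNReal ComplexConjugate

namespace Pool.Agent.H133R3.Par

noncomputable section

/-! ### Time cut-off -/

def th (t : ℝ) : ℝ := Real.smoothTransition (2 * t - 1)

theorem th_contDiff : ContDiff ℝ 1 th := by
  unfold th
  exact Real.smoothTransition.contDiff.comp (by fun_prop)

theorem th_hasDerivAt (t : ℝ) : HasDerivAt th (deriv th t) t :=
  (th_contDiff.differentiable (by norm_num) t).hasDerivAt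

theorem th_zero {t : ℝ} (h : t ≤ 1 / 2) : th t = 0 :=
  Real.smoothTransition.zero_of_nonpos (by linarith)

theorem th_one {t : ℝ} (h : 1 ≤ t) : th t = 1 :=
  Real.smoothTransition.one_of_one_le (by linarith)

theorem th_nonneg (t : ℝ) : 0 ≤ th t := Real.smoothTransition.nonneg _

theorem th_le_one (t : ℝ) : th t ≤ 1 := Real.smoothTransition.le_one _

theorem dth_zero {t : ℝ} (h : t < 1 / 2) : deriv th t = 0 := by
  have : th =ᶠ[nhds t] fun _ => (0 : ℝ) := by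
    filter_upwards [Iio_mem_nhds h] with s hs
    exact th_zero (le_of_lt hs)
  rw [this.deriv_eq]
  simp

theorem dth_zero' {t : ℝ} (h : 1 < t) : deriv th t = 0 := by
  have : th =ᶠ[nhds t] fun _ => (1 : ℝ) := by
    filter_upwards [Ioi_mem_nhds h] with s hs
    exact th_one (le_of_lt hs)
  rw [this.deriv_eq]
  simp

theorem dth_cont : Continuous (deriv th) := th_contDiff.continuous_deriv (by norm_num)

theorem dth_bound : ∃ K : ℝ, 0 ≤ K ∧ ∀ t, |deriv th t| ≤ K := by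
  obtain ⟨K, hK⟩ := (isCompact_Icc (a := (0 : ℝ)) (b := 2)).exists_bound_of_continuousOn dth_cont.continuousOn
  refine ⟨max K 0, le_max_right _ _, fun t => ?_⟩
  by_cases h : t ∈ Set.Icc (0 : ℝ) 2
  · exact (hK t h).trans (le_max_left _ _)
  · have : deriv th t = 0 := by
      rw [Set.mem_Icc, not_and_or, not_le, not_le] at h
      rcases h with h | h
      · exact dth_zero (by linarith)
      · exact dth_zero' (by linarith)
    rw [this, abs_zero]
    exact le_max_right _ _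

def mm (l t : ℝ) : ℝ := th t * Real.exp (-(t / l ^ 2))
def mm' (l t : ℝ) : ℝ := deriv th t * Real.exp (-(t / l ^ 2)) - th t * Real.exp (-(t / l ^ 2)) / l ^ 2
def kk (l t : ℝ) : ℝ := deriv th t * Real.exp (-(t / l ^ 2))

theorem mm_hasDerivAt (l t : ℝ) : HasDerivAt (mm l) (mm' l t) t := by
  unfold mm mm'
  have h1 : HasDerivAt (fun s : ℝ => Real.exp (-(s / l ^ 2))) (Real.exp (-(t / l ^ 2)) * (-(1 / l ^ 2))) t :=
    ((hasDerivAt_id t).div_const (l ^ 2)).neg.exp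
  exact ((th_hasDerivAt t).mul h1).congr_deriv (by ring)

theorem mm_zero {l t : ℝ} (h : t < 1 / 2) : mm l t = 0 := by simp [mm, th_zero h.le]
theorem mm'_zero {l t : ℝ} (h : t < 1 / 2) : mm' l t = 0 := by simp [mm', th_zero h.le, dth_zero h]
theorem kk_zero {l t : ℝ} (h : t < 1 / 2) : kk l t = 0 := by simp [kk, dth_zero h]

theorem mm_bound (l t : ℝ) : |mm l t| ≤ 1 * Real.exp (-(t / l ^ 2)) := by
  unfold mm
  rw [abs_mul, abs_of_nonneg (th_nonneg t), abs_of_pos (Real.exp_pos _)]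
  exact mul_le_mul_of_nonneg_right (th_le_one t) (Real.exp_pos _).le

theorem kk_bound : ∃ K : ℝ, 0 ≤ K ∧ ∀ l t, |kk l t| ≤ K * Real.exp (-(t / l ^ 2)) := by
  obtain ⟨K, hK0, hK⟩ := dth_bound
  refine ⟨K, hK0, fun l t => ?_⟩
  unfold kk
  rw [abs_mul, abs_of_pos (Real.exp_pos _)]
  exact mul_le_mul_of_nonneg_right (hK t) (Real.exp_pos _).le

theorem mm'_bound (l : ℝ) : ∃ K : ℝ, 0 ≤ K ∧ ∀ t, |mm' l t| ≤ K * Real.exp (-(t / l ^ 2)) := by
  obtain ⟨K, hK0, hK⟩ := kk_bound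
  refine ⟨K + 1 / l ^ 2, by positivity, fun t => ?_⟩
  have h1 : mm' l t = kk l t - mm l t / l ^ 2 := by unfold mm' kk mm; ring
  rw [h1]
  have h2 : |mm l t / l ^ 2| ≤ 1 / l ^ 2 * Real.exp (-(t / l ^ 2)) := by
    rw [abs_div, abs_of_nonneg (sq_nonneg l), div_eq_mul_inv]
    have := mul_le_mul_of_nonneg_right (mm_bound l t) (by positivity : 0 ≤ (l ^ 2)⁻¹)
    calc _ ≤ 1 * Real.exp (-(t / l ^ 2)) * (l ^ 2)⁻¹ := this
      _ = _ := by ring
  calc |kk l t - mm l t / l ^ 2| ≤ |kk l t| + |mm l t / l ^ 2| := abs_sub _ _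
    _ ≤ K * Real.exp (-(t / l ^ 2)) + 1 / l ^ 2 * Real.exp (-(t / l ^ 2)) := add_le_add (hK l t) h2
    _ = _ := by ring

/-! ### Bounds for the profile functions -/

theorem norm_Ef (x t : ℝ) : ‖Ef x t‖ = Real.exp (3 / 100 * Real.log t - 12 * (x ^ 2 / t)) := by
  unfold Ef
  rw [Complex.norm_exp]
  congr 1
  rw [Complex.sub_re, Complex.re_mul_ofReal, Complex.re_mul_ofReal]
  simp [Gm, zz]

/-- `h` is bounded by a cubic in `S` times `Ef`, for `t ≥ 1/2`. -/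
def PolyBd (h : ℝ → ℝ → ℂ) : Prop :=
  ∃ K : ℝ, 0 ≤ K ∧ ∀ x t : ℝ, 1 / 2 ≤ t → ‖h x t‖ ≤ K * (1 + x ^ 2 / t) ^ 3 * ‖Ef x t‖

theorem quad_bound (a b c : ℂ) {S : ℝ} (hS : 0 ≤ S) :
    ‖a + b * (S : ℂ) + c * (S : ℂ) ^ 2‖ ≤ (‖a‖ + ‖b‖ + ‖c‖) * (1 + S) ^ 2 := by
  have h1 : ‖b * (S : ℂ)‖ = ‖b‖ * S := by rw [norm_mul, Complex.norm_real, Real.norm_of_nonneg hS]
  have h2 : ‖c * (S : ℂ) ^ 2‖ = ‖c‖ * S ^ 2 := by rw [norm_mul, norm_pow, Complex.norm_real, Real.norm_of_nonneg hS]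
  calc ‖a + b * (S : ℂ) + c * (S : ℂ) ^ 2‖ ≤ ‖a‖ + ‖b‖ * S + ‖c‖ * S ^ 2 := by
        rw [← h1, ← h2]
        exact (norm_add_le _ _).trans (add_le_add_left (norm_add_le _ _) _)
    _ ≤ _ := by
        have := norm_nonneg a
        have := norm_nonneg b
        have := norm_nonneg c
        nlinarith [mul_nonneg (norm_nonneg a) hS, mul_nonneg (norm_nonneg b) hS, mul_nonneg (norm_nonneg c) hS,
          mul_nonneg (norm_nonneg a) (sq_nonneg S), mul_nonneg (norm_nonneg b) (sq_nonneg S)]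

theorem inv_t_bound {t : ℝ} (ht : 1 / 2 ≤ t) : 1 / t ≤ 2 := by
  rw [div_le_iff₀ (by linarith)]; linarith

theorem x_div_bound {x t : ℝ} (ht : 1 / 2 ≤ t) : |x / t| ≤ 1 + x ^ 2 / t := by
  have h0 : 0 < t := by linarith
  rw [abs_div, abs_of_pos h0]
  have h1 := inv_t_bound ht
  have h2 : |x| ≤ (1 + x ^ 2) / 2 := by nlinarith [sq_nonneg (|x| - 1), sq_abs x]
  calc |x| / t ≤ (1 + x ^ 2) / 2 / t := div_le_div_of_nonneg_right h2 h0.le
    _ = (1 / t + x ^ 2 / t) / 2 := by field_simp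
    _ ≤ _ := by
        have : 0 ≤ x ^ 2 / t := by positivity
        linarith

theorem polyBd_w : PolyBd w := by
  refine ⟨‖2 * (cc - zz)‖ + ‖- (2 * zz * cc)‖, by positivity, fun x t ht => ?_⟩
  have h0 : 0 < t := by linarith
  have hS : 0 ≤ x ^ 2 / t := by positivity
  unfold w
  rw [norm_mul, norm_mul, Complex.norm_real, Real.norm_eq_abs]
  have h1 := x_div_bound (x := x) ht
  have h2 := quad_bound (2 * (cc - zz)) (-(2 * zz * cc)) 0 hS
  have h3 : 2 * (cc - zz) - 2 * zz * cc * ((x ^ 2 / t : ℝ) : ℂ) =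
      2 * (cc - zz) + -(2 * zz * cc) * ((x ^ 2 / t : ℝ) : ℂ) + 0 * ((x ^ 2 / t : ℝ) : ℂ) ^ 2 := by ring
  rw [h3]
  apply mul_le_mul_of_nonneg_right _ (norm_nonneg _)
  calc |x / t| * _ ≤ (1 + x ^ 2 / t) * ((‖2 * (cc - zz)‖ + ‖- (2 * zz * cc)‖ + ‖(0 : ℂ)‖) * (1 + x ^ 2 / t) ^ 2) :=
        mul_le_mul h1 h2 (norm_nonneg _) (by positivity)
    _ = _ := by simp; ring

theorem quad_cube (a b c : ℂ) {S : ℝ} (hS : 0 ≤ S) :
    ‖a + b * (S : ℂ) + c * (S : ℂ) ^ 2‖ ≤ (‖a‖ + ‖b‖ + ‖c‖) * (1 + S) ^ 3 := by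
  refine (quad_bound a b c hS).trans ?_
  apply mul_le_mul_of_nonneg_left _ (by positivity)
  exact pow_le_pow_right₀ (by linarith) (by norm_num)

theorem polyBd_wx : PolyBd wx := by
  refine ⟨2 * (‖2 * (cc - zz)‖ + ‖4 * zz ^ 2 - 10 * zz * cc‖ + ‖4 * zz ^ 2 * cc‖), by positivity, fun x t ht => ?_⟩
  have h0 : 0 < t := by linarith
  have hS : 0 ≤ x ^ 2 / t := by positivity
  unfold wx Den
  rw [norm_mul, norm_mul, Complex.norm_real, Real.norm_of_nonneg (by positivity)]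
  apply mul_le_mul_of_nonneg_right _ (norm_nonneg _)
  refine (mul_le_mul (inv_t_bound ht) (quad_cube _ _ _ hS) (norm_nonneg _) (by norm_num)).trans (le_of_eq ?_)
  ring

theorem polyBd_GG : PolyBd GG := by
  refine ⟨2 * (‖Gm‖ + ‖Gm * cc - cc + zz‖ + ‖zz * cc‖), by positivity, fun x t ht => ?_⟩
  have h0 : 0 < t := by linarith
  have hS : 0 ≤ x ^ 2 / t := by positivity
  unfold GG Num
  rw [norm_mul, norm_mul, Complex.norm_real, Real.norm_of_nonneg (by positivity)]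
  apply mul_le_mul_of_nonneg_right _ (norm_nonneg _)
  refine (mul_le_mul (inv_t_bound ht) (quad_cube _ _ _ hS) (norm_nonneg _) (by norm_num)).trans (le_of_eq ?_)
  ring

theorem polyBd_Gx : PolyBd Gx := by
  refine ⟨2 * (‖2 * (Gm * cc - cc + zz) - 2 * zz * Gm‖ + ‖4 * zz * cc - 2 * zz * (Gm * cc - cc + zz)‖
    + ‖- (2 * zz * (zz * cc))‖), by positivity, fun x t ht => ?_⟩
  have h0 : 0 < t := by linarith
  have hS : 0 ≤ x ^ 2 / t := by positivity
  unfold Gx Num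
  rw [norm_mul, norm_mul, Complex.norm_real, Real.norm_eq_abs]
  apply mul_le_mul_of_nonneg_right _ (norm_nonneg _)
  have h3 : 2 * (Gm * cc - cc + zz) + 4 * zz * cc * ((x ^ 2 / t : ℝ) : ℂ)
      - 2 * zz * (Gm + (Gm * cc - cc + zz) * ((x ^ 2 / t : ℝ) : ℂ) + zz * cc * ((x ^ 2 / t : ℝ) : ℂ) ^ 2) =
      (2 * (Gm * cc - cc + zz) - 2 * zz * Gm) + (4 * zz * cc - 2 * zz * (Gm * cc - cc + zz)) * ((x ^ 2 / t : ℝ) : ℂ)
      + -(2 * zz * (zz * cc)) * ((x ^ 2 / t : ℝ) : ℂ) ^ 2 := by ring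
  rw [h3]
  have h4 := quad_bound (2 * (Gm * cc - cc + zz) - 2 * zz * Gm) (4 * zz * cc - 2 * zz * (Gm * cc - cc + zz))
    (-(2 * zz * (zz * cc))) hS
  have h5 : |x / t ^ 2| ≤ 2 * (1 + x ^ 2 / t) := by
    have e : x / t ^ 2 = (1 / t) * (x / t) := by field_simp
    rw [e, abs_mul, abs_of_pos (by positivity : 0 < 1 / t)]
    exact mul_le_mul (inv_t_bound ht) (x_div_bound ht) (abs_nonneg _) (by norm_num)
  calc |x / t ^ 2| * _ ≤ (2 * (1 + x ^ 2 / t)) * (_ * (1 + x ^ 2 / t) ^ 2) :=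
        mul_le_mul h5 h4 (norm_nonneg _) (by positivity)
    _ = _ := by ring

/-- Main bound. -/
theorem box_bound {l : ℝ} (hl : 0 < l) {k : ℝ → ℝ} (hk0 : ∀ t, t < 1 / 2 → k t = 0) {Ck : ℝ} (hCk : 0 ≤ Ck)
    (hk : ∀ t, |k t| ≤ Ck * Real.exp (-(t / l ^ 2))) {h : ℝ → ℝ → ℂ} (hh : PolyBd h) :
    ∃ C : ℝ, ∀ X : ST, ‖(k (X 1) : ℂ) * h (X 0) (X 1)‖ ≤ C * ((1 + (X 0) ^ 2)⁻¹ * (1 + (X 1) ^ 2)⁻¹) := by
  obtain ⟨K, hK0, hK⟩ := hh
  have hl2 : 0 < l ^ 2 := by positivity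
  refine ⟨Ck * K * Real.exp |Real.log (4 * l ^ 2)| * (1 + 2 * l ^ 2) * (1 + 2 * (2 * l ^ 2) ^ 2), fun X => ?_⟩
  obtain ⟨x, hx⟩ : ∃ x, x = X 0 := ⟨_, rfl⟩
  obtain ⟨t, ht⟩ : ∃ t, t = X 1 := ⟨_, rfl⟩
  rw [← hx, ← ht]
  by_cases hth : t < 1 / 2
  · rw [hk0 t hth]
    simp only [Complex.ofReal_zero, zero_mul, norm_zero]
    positivity
  push Not at hth
  have ht0 : 0 < t := by linarith
  have hS : 0 ≤ x ^ 2 / t := by positivity
  have h1 : ‖h x t‖ ≤ K * Real.exp (3 * (x ^ 2 / t)) * (Real.exp (t / (4 * l ^ 2)) * Real.exp |Real.log (4 * l ^ 2)|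
      * Real.exp (-(12 * (x ^ 2 / t)))) := by
    refine (hK x t hth).trans ?_
    apply mul_le_mul
    · apply mul_le_mul_of_nonneg_left _ hK0
      have : 1 + x ^ 2 / t ≤ Real.exp (x ^ 2 / t) := by
        have := Real.add_one_le_exp (x ^ 2 / t); linarith
      calc (1 + x ^ 2 / t) ^ 3 ≤ Real.exp (x ^ 2 / t) ^ 3 := pow_le_pow_left₀ (by linarith) this 3
        _ = _ := by rw [← Real.exp_nat_mul]; norm_num
    · rw [norm_Ef, ← Real.exp_add, ← Real.exp_add]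
      apply Real.exp_le_exp.2
      have h2 : Real.log t ≤ t / (4 * l ^ 2) + |Real.log (4 * l ^ 2)| := by
        have h3 : Real.log t = Real.log (t / (4 * l ^ 2)) + Real.log (4 * l ^ 2) := by
          rw [Real.log_div ht0.ne' (by positivity)]; ring
        have h4 := Real.log_le_sub_one_of_pos (by positivity : 0 < t / (4 * l ^ 2))
        have h5 := le_abs_self (Real.log (4 * l ^ 2))
        linarith
      have h6 : 0 ≤ t / (4 * l ^ 2) + |Real.log (4 * l ^ 2)| := by positivity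
      nlinarith
    · exact norm_nonneg _
    · positivity
  have h7 : |x| / l ≤ x ^ 2 / t + t / (4 * l ^ 2) := by
    rw [div_add_div _ _ ht0.ne' (by positivity), div_le_div_iff₀ hl (by positivity)]
    have : 0 ≤ l * (2 * l * |x| - t) ^ 2 := by positivity
    have e : (2 * l * |x| - t) ^ 2 = 4 * l ^ 2 * x ^ 2 - 4 * l * |x| * t + t ^ 2 := by
      calc _ = 4 * l ^ 2 * |x| ^ 2 - 4 * l * |x| * t + t ^ 2 := by ring
        _ = _ := by rw [sq_abs]
    rw [e] at this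
    nlinarith
  rw [norm_mul, Complex.norm_real, Real.norm_eq_abs]
  calc |k t| * ‖h x t‖ ≤ (Ck * Real.exp (-(t / l ^ 2))) * (K * Real.exp (3 * (x ^ 2 / t)) *
        (Real.exp (t / (4 * l ^ 2)) * Real.exp |Real.log (4 * l ^ 2)| * Real.exp (-(12 * (x ^ 2 / t))))) :=
        mul_le_mul (hk t) h1 (norm_nonneg _) (by positivity)
    _ = Ck * K * Real.exp |Real.log (4 * l ^ 2)| * Real.exp (-(t / l ^ 2) + 3 * (x ^ 2 / t) + t / (4 * l ^ 2)
          + -(12 * (x ^ 2 / t))) := by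
        rw [Real.exp_add, Real.exp_add, Real.exp_add]; ring
    _ ≤ Ck * K * Real.exp |Real.log (4 * l ^ 2)| * Real.exp (-(|x| / l) + -(|t| / (2 * l ^ 2))) := by
        apply mul_le_mul_of_nonneg_left _ (by positivity)
        apply Real.exp_le_exp.2
        rw [abs_of_pos ht0]
        have e1 : t / (4 * l ^ 2) = (t / l ^ 2) / 4 := by field_simp
        have e2 : t / (2 * l ^ 2) = (t / l ^ 2) / 2 := by field_simp
        rw [e1] at h7 ⊢
        rw [e2]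
        have : 0 ≤ t / l ^ 2 := by positivity
        linarith
    _ ≤ Ck * K * Real.exp |Real.log (4 * l ^ 2)| * (((1 + 2 * l ^ 2) * (1 + x ^ 2)⁻¹) *
          ((1 + 2 * (2 * l ^ 2) ^ 2) * (1 + t ^ 2)⁻¹)) := by
        apply mul_le_mul_of_nonneg_left _ (by positivity)
        rw [Real.exp_add]
        exact mul_le_mul (exp_neg_le_inv hl x) (exp_neg_le_inv (by positivity) t) (Real.exp_pos _).le (by positivity)
    _ = _ := by ring

end

end Pool.Agent.H133R3.Par
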