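import Mathlib

set_option autoImplicit false

open MeasureTheory FourierTransform
open scoped ENNReal ComplexConjugate

namespace Pool.Agent.H133R3.Par

/-- Space-time `R^2`; a point is `X = (X 0, X 1) = (x, t)`. -/
abbrev ST : Type := EuclideanSpace ℝ (Fin 2)

/-- Complex `L^2(R^2)`. -/
abbrev L2 : Type := Lp ℂ 2 (volume : Measure ST)

/-- A representative of `u`. -/
noncomputable def rep (u : L2) : ST → ℂ := fun X => u X

/-- The Fourier transform on `L^2(R^2)`. -/
noncomputable def ft (u : L2) : L2 := 𝓕 u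

/-- The inverse Fourier transform on `L^2(R^2)`. -/
noncomputable def ift (u : L2) : L2 := 𝓕⁻ u

/-- Square integrability of a function on `R^2`. -/
def SqInt (f : ST → ℂ) : Prop := MemLp f 2 volume

/-- `u` lies in the `L^2`-domain of the Fourier multiplier with symbol `m`. -/
def InDom (m : ST → ℂ) (u : L2) : Prop := SqInt (fun ζ => m ζ * rep (ft u) ζ)

/-- The element of `L^2` given by a square integrable function. -/
noncomputable def toL2 (f : ST → ℂ) (h : SqInt f) : L2 := MemLp.toLp f h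

open Classical in
/-- The Fourier multiplier with symbol `m`, i.e. the inverse Fourier transform of `m * Fourier u`
(and `0` by convention if `u` is not in the domain). -/
noncomputable def mult (m : ST → ℂ) (u : L2) : L2 :=
  if h : InDom m u then ift (toL2 _ h) else 0

/-- Symbol of `∂_x`. -/
noncomputable def symDx (ζ : ST) : ℂ := 2 * Real.pi * Complex.I * (ζ 0 : ℂ)

/-- Symbol of `D_t^{1/2}`, namely `|τ|^{1/2}` with `τ = 2 π ζ_1`. -/
noncomputable def symHalf (ζ : ST) : ℂ := ((|2 * Real.pi * ζ 1| ^ (1 / 2 : ℝ) : ℝ) : ℂ)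

/-- Symbol of the Hilbert transform `H_t`, namely `i τ / |τ|`. -/
noncomputable def symHilb (ζ : ST) : ℂ := Complex.I * ((SignType.sign (ζ 1) : ℝ) : ℂ)

/-- The energy space `E`. -/
def InE (u : L2) : Prop := InDom symDx u ∧ InDom symHalf u

/-- The sesquilinear pairing `∬ f · conj g`. -/
noncomputable def pair (f g : ST → ℂ) : ℂ := ∫ X : ST, f X * conj (g X)

/-- The sesquilinear form
`∬ H_t D_t^{1/2} u · conj (D_t^{1/2} v) + a ∂_x u · conj (∂_x v)`. -/
noncomputable def form (a : ST → ℂ) (u v : L2) : ℂ :=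
  pair (rep (mult symHilb (mult symHalf u))) (rep (mult symHalf v)) +
    pair (fun X => a X * rep (mult symDx u) X) (rep (mult symDx v))

/-- `u = (1 + l^2 H)^{-1} f`: `u` is in the energy space and `u + l^2 H u = f` in `E*`. -/
def IsRes (a : ST → ℂ) (l : ℝ) (f u : L2) : Prop :=
  InE u ∧ ∀ v : L2, InE v → pair (rep u) (rep v) + (l : ℂ) ^ 2 * form a u v = pair (rep f) (rep v)

/-- The `L^p(R^2)` norm (with values in `[0, ∞]`). -/
noncomputable def nrm (p : ℝ) (f : ST → ℂ) : ℝ≥0∞ := eLpNorm f (ENNReal.ofReal p) volume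

/-- The family `E_l = (1 + l^2 H)^{-1}`, `l > 0`, is `L^p` bounded. -/
def LpBdd (a : ST → ℂ) (p : ℝ) : Prop :=
  ∃ C : ℝ, ∀ l : ℝ, 0 < l → ∀ f u : L2, IsRes a l f u → nrm p (rep f) < ⊤ →
    nrm p (rep u) ≤ ENNReal.ofReal C * nrm p (rep f)

/-- The lower critical number `p_-(H)`. -/
noncomputable def pMinus (a : ST → ℂ) : ℝ := sInf {p : ℝ | 1 ≤ p ∧ p ≤ 2 ∧ LpBdd a p}

theorem inDom_iff (m : ST → ℂ) (u : L2) :
    InDom m u ↔ MemLp (fun ζ : ST => m ζ * (𝓕 u : L2) ζ) 2 volume := Iff.rfl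

theorem mult_of {m : ST → ℂ} {u : L2} (h : MemLp (fun ζ : ST => m ζ * (𝓕 u : L2) ζ) 2 volume) :
    mult m u = (𝓕⁻ (h.toLp _ : L2) : L2) := by
  have h' : InDom m u := h
  rw [mult, dif_pos h']
  rfl

theorem form_eq_int (a : ST → ℂ) (u v : L2) : form a u v =
    (∫ X : ST, mult symHilb (mult symHalf u) X * conj (mult symHalf v X)) +
    ∫ X : ST, a X * mult symDx u X * conj (mult symDx v X) := rfl

theorem isRes_iff (a : ST → ℂ) (l : ℝ) (f u : L2) : IsRes a l f u ↔
    InE u ∧ ∀ v : L2, InE v →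
    (∫ X : ST, u X * conj (v X)) + (l : ℂ) ^ 2 * form a u v = ∫ X : ST, f X * conj (v X) := Iff.rfl

theorem lpBdd_iff (a : ST → ℂ) (p : ℝ) : LpBdd a p ↔
    ∃ C : ℝ, ∀ l : ℝ, 0 < l → ∀ f u : L2, IsRes a l f u → MemLp f (ENNReal.ofReal p) volume →
    eLpNorm u (ENNReal.ofReal p) volume ≤ ENNReal.ofReal C * eLpNorm f (ENNReal.ofReal p) volume := by
  constructor
  · rintro ⟨C, hC⟩
    exact ⟨C, fun l hl f u h hf => hC l hl f u h hf.eLpNorm_lt_top⟩
  · rintro ⟨C, hC⟩
    exact ⟨C, fun l hl f u h hf => hC l hl f u h ⟨Lp.aestronglyMeasurable f, hf⟩⟩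

end Pool.Agent.H133R3.Par
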