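import Pool.Agent.H133R3.ParFour

set_option autoImplicit false

open MeasureTheory FourierTransform SchwartzMap LineDeriv
open scoped ENNReal ComplexConjugate

namespace Pool.Agent.H133R3.Par

theorem integral_mul_conj (f g : L2) :
    ∫ X : ST, f X * conj (g X) = inner ℂ g f := by
  rw [L2.inner_def]
  congr 1

theorem plancherel (f g : L2) :
    ∫ X : ST, f X * conj (g X) = ∫ X : ST, (𝓕 f : L2) X * conj ((𝓕 g : L2) X) := by
  rw [integral_mul_conj, integral_mul_conj, Lp.inner_fourier_eq]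

theorem fourier_mult {m : ST → ℂ} {u : L2} (h : InDom m u) :
    (𝓕 (mult m u) : L2) =ᵐ[volume] fun ζ => m ζ * (𝓕 u : L2) ζ := by
  have h' := (inDom_iff m u).1 h
  have : (𝓕 (mult m u) : L2) = h'.toLp _ := by
    rw [mult_of h', FourierTransform.fourier_fourierInv_eq]
  rw [this]
  exact h'.coeFn_toLp

theorem mult_eq_of_ae {m : ST → ℂ} {u w : L2}
    (h : (𝓕 w : L2) =ᵐ[volume] fun ζ => m ζ * (𝓕 u : L2) ζ) :
    InDom m u ∧ mult m u = w := by
  have h1 : InDom m u := (inDom_iff m u).2 ((memLp_congr_ae h).1 (Lp.memLp _))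
  refine ⟨h1, ?_⟩
  have h2 : (𝓕 (mult m u) : L2) = (𝓕 w : L2) := by
    apply Lp.ext
    exact (fourier_mult h1).trans h.symm
  have h3 := congrArg (fun z : L2 => (𝓕⁻ z : L2)) h2
  simpa using h3

theorem symHalf_meas : Measurable symHalf := by
  unfold symHalf
  fun_prop

theorem symHilb_meas : Measurable symHilb := by
  unfold symHilb
  apply Measurable.const_mul
  apply Complex.measurable_ofReal.comp
  have h1 : Measurable (fun x : ℝ => ((SignType.sign x : SignType) : ℝ)) := by
    have : (fun x : ℝ => ((SignType.sign x : SignType) : ℝ)) =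
        fun x : ℝ => if 0 < x then (1 : ℝ) else if x < 0 then (-1 : ℝ) else 0 := by
      ext x
      rw [sign_apply]
      split_ifs <;> simp
    rw [this]
    exact Measurable.ite measurableSet_Ioi measurable_const
      (Measurable.ite measurableSet_Iio measurable_const measurable_const)
  exact h1.comp (by fun_prop)

theorem norm_symHilb_le (ζ : ST) : ‖symHilb ζ‖ ≤ 1 := by
  unfold symHilb
  rw [norm_mul, Complex.norm_I, one_mul, Complex.norm_real]
  rcases SignType.sign (ζ 1) with _ | _ | _ <;> simp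

theorem inDom_symHilb (u : L2) : InDom symHilb u := by
  rw [inDom_iff]
  apply (Lp.memLp (𝓕 u : L2)).mono
  · exact symHilb_meas.aestronglyMeasurable.mul (Lp.aestronglyMeasurable _)
  · filter_upwards with ζ
    rw [norm_mul]
    calc ‖symHilb ζ‖ * ‖(𝓕 u : L2) ζ‖ ≤ 1 * ‖(𝓕 u : L2) ζ‖ :=
          mul_le_mul_of_nonneg_right (norm_symHilb_le ζ) (norm_nonneg _)
      _ = _ := one_mul _

theorem symHalf_sq (ζ : ST) : symHalf ζ * symHalf ζ = ((|2 * Real.pi * ζ 1| : ℝ) : ℂ) := by
  unfold symHalf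
  rw [← Complex.ofReal_mul, ← Real.rpow_add_of_nonneg (abs_nonneg _) (by norm_num) (by norm_num)]
  norm_num

theorem conj_symHalf (ζ : ST) : conj (symHalf ζ) = symHalf ζ := by
  unfold symHalf
  exact Complex.conj_ofReal _

theorem symHilb_symHalf (ζ : ST) :
    symHilb ζ * (symHalf ζ * symHalf ζ) = 2 * Real.pi * Complex.I * (ζ 1 : ℂ) := by
  rw [symHalf_sq]
  unfold symHilb
  have h : ((SignType.sign (ζ 1) : SignType) : ℝ) * |2 * Real.pi * ζ 1| = 2 * Real.pi * ζ 1 := by
    rw [abs_mul, abs_of_pos (by positivity : (0 : ℝ) < 2 * Real.pi)]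
    calc ((SignType.sign (ζ 1) : SignType) : ℝ) * (2 * Real.pi * |ζ 1|)
        = 2 * Real.pi * (((SignType.sign (ζ 1) : SignType) : ℝ) * |ζ 1|) := by ring
      _ = 2 * Real.pi * ζ 1 := by rw [sign_mul_abs]
  calc Complex.I * (((SignType.sign (ζ 1) : SignType) : ℝ) : ℂ) * ((|2 * Real.pi * ζ 1| : ℝ) : ℂ)
      = Complex.I * ((((SignType.sign (ζ 1) : SignType) : ℝ) * |2 * Real.pi * ζ 1| : ℝ) : ℂ) := by
        push_cast; ring
    _ = _ := by rw [h]; push_cast; ring

theorem norm_symHalf_le (ζ : ST) : ‖symHalf ζ‖ ≤ 1 + |2 * Real.pi * ζ 1| := by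
  unfold symHalf
  rw [Complex.norm_real, Real.norm_of_nonneg (by positivity)]
  have h0 := abs_nonneg (2 * Real.pi * ζ 1)
  rcases le_total 1 |2 * Real.pi * ζ 1| with h | h
  · calc |2 * Real.pi * ζ 1| ^ (1 / 2 : ℝ) ≤ |2 * Real.pi * ζ 1| ^ (1 : ℝ) :=
          Real.rpow_le_rpow_of_exponent_le h (by norm_num)
      _ ≤ _ := by rw [Real.rpow_one]; linarith
  · calc |2 * Real.pi * ζ 1| ^ (1 / 2 : ℝ) ≤ 1 := Real.rpow_le_one h0 h (by norm_num)
      _ ≤ _ := by linarith

/-- Weak derivative relation in direction `m`. -/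
def WeakD (m : ST) (f g : L2) : Prop :=
  ∀ ψ : 𝓢(ST, ℂ), ∫ x, ψ x • g x = - ∫ x, (∂_{m} ψ) x • f x

noncomputable abbrev ex : ST := EuclideanSpace.single 0 (1 : ℝ)
noncomputable abbrev et : ST := EuclideanSpace.single 1 (1 : ℝ)

theorem inner_single' (ζ : ST) (i : Fin 2) :
    (inner ℝ ζ (EuclideanSpace.single i (1 : ℝ)) : ℝ) = ζ i := by
  rw [EuclideanSpace.inner_single_right]
  simp

theorem integrable_mul_conj {f g : ST → ℂ} (hf : MemLp f 2 (volume : Measure ST))
    (hg : MemLp g 2 (volume : Measure ST)) : Integrable (fun X => f X * conj (g X)) volume := by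
  have h2 : MemLp (fun X => conj (g X)) 2 (volume : Measure ST) := hg.star
  exact MemLp.integrable_mul (p := 2) (q := 2) hf h2

theorem fourier_dx {f g : L2} (h : WeakD ex f g) :
    (𝓕 g : L2) =ᵐ[volume] fun ζ => symDx ζ * (𝓕 f : L2) ζ := by
  refine (fourier_weak f g ex h).trans ?_
  filter_upwards with ζ
  rw [inner_single']
  rfl

theorem fourier_dt {f g : L2} (h : WeakD et f g) :
    (𝓕 g : L2) =ᵐ[volume] fun ζ => (2 * Real.pi * Complex.I * (ζ 1 : ℂ)) * (𝓕 f : L2) ζ := by
  refine (fourier_weak f g et h).trans ?_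
  filter_upwards with ζ
  rw [inner_single']

theorem inDom_half {u ut : L2} (h : WeakD et u ut) : InDom symHalf u := by
  have h1 : MemLp (fun ζ => ‖(𝓕 u : L2) ζ‖ + ‖(𝓕 ut : L2) ζ‖) 2 (volume : Measure ST) :=
    (Lp.memLp (𝓕 u : L2)).norm.add (Lp.memLp (𝓕 ut : L2)).norm
  rw [inDom_iff]
  apply h1.mono
  · exact symHalf_meas.aestronglyMeasurable.mul (Lp.aestronglyMeasurable _)
  · filter_upwards [fourier_dt h] with ζ hζ
    rw [hζ, norm_mul, norm_mul, Real.norm_of_nonneg (by positivity)]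
    have e1 : ‖(2 * Real.pi * Complex.I * (ζ 1 : ℂ) : ℂ)‖ = |2 * Real.pi * ζ 1| := by
      rw [norm_mul, norm_mul, norm_mul, Complex.norm_I, Complex.norm_real, Complex.norm_real, abs_mul, abs_mul]
      simp
    rw [e1]
    have h2 := norm_symHalf_le ζ
    have h3 := norm_nonneg ((𝓕 u : L2) ζ)
    nlinarith

theorem form_eq {a : ST → ℂ} {u ut ux g gx v : L2} (ht : WeakD et u ut) (hx : WeakD ex u ux)
    (hg : (g : ST → ℂ) =ᵐ[volume] fun X => a X * ux X) (hgx : WeakD ex g gx) (hv : InE v) :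
    form a u v = (∫ X : ST, ut X * conj (v X)) - ∫ X : ST, gx X * conj (v X) := by
  obtain ⟨hd1, hm1⟩ := mult_eq_of_ae (fourier_dx hx)
  have hh := inDom_half ht
  have hH := inDom_symHilb (mult symHalf u)
  -- first part
  have e1 : ∫ X : ST, mult symHilb (mult symHalf u) X * conj (mult symHalf v X) =
      ∫ X : ST, ut X * conj (v X) := by
    rw [plancherel, plancherel ut v]
    apply integral_congr_ae
    filter_upwards [fourier_mult hH, fourier_mult hh, fourier_mult hv.2, fourier_dt ht] with ζ a1 a2 a3 a4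
    rw [a1, a2, a3, a4, map_mul, conj_symHalf, ← symHilb_symHalf]
    ring
  have e2 : ∫ X : ST, g X * conj (mult symDx v X) = - ∫ X : ST, gx X * conj (v X) := by
    rw [plancherel, plancherel gx v, ← integral_neg]
    apply integral_congr_ae
    filter_upwards [fourier_mult hv.1, fourier_dx hgx] with ζ a1 a2
    rw [a1, a2, map_mul]
    have : conj (symDx ζ) = - symDx ζ := by
      have h2 : (starRingEnd ℂ) 2 = 2 := Complex.conj_ofNat 2
      simp [symDx, h2]
    rw [this]
    ring
  have i1 : Integrable (fun X : ST => mult symHilb (mult symHalf u) X * conj (mult symHalf v X)) volume :=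
    integrable_mul_conj (Lp.memLp _) (Lp.memLp _)
  have i2 : Integrable (fun X : ST => g X * conj (mult symDx v X)) volume :=
    integrable_mul_conj (Lp.memLp _) (Lp.memLp _)
  have i3 : (fun X : ST => a X * mult symDx u X * conj (mult symDx v X)) =ᵐ[volume]
      fun X => g X * conj (mult symDx v X) := by
    filter_upwards [hg] with X hX
    rw [hX, hm1]
  rw [form_eq_int, integral_congr_ae i3, e1, e2]
  ring

theorem isRes_of {a : ST → ℂ} {l : ℝ} {f u ut ux g gx : L2} (ht : WeakD et u ut) (hx : WeakD ex u ux)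
    (hg : (g : ST → ℂ) =ᵐ[volume] fun X => a X * ux X) (hgx : WeakD ex g gx)
    (hf : (f : ST → ℂ) =ᵐ[volume] fun X => u X + (l : ℂ) ^ 2 * (ut X - gx X)) :
    IsRes a l f u := by
  rw [isRes_iff]
  refine ⟨⟨(mult_eq_of_ae (fourier_dx hx)).1, inDom_half ht⟩, ?_⟩
  intro v hv
  rw [form_eq ht hx hg hgx hv]
  have j (w : L2) : Integrable (fun X : ST => w X * conj (v X)) volume :=
    integrable_mul_conj (Lp.memLp _) (Lp.memLp _)
  have j2 : Integrable (fun X : ST => (l : ℂ) ^ 2 * (ut X * conj (v X) - gx X * conj (v X))) volume :=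
    ((j ut).sub (j gx)).const_mul _
  rw [← integral_sub (j ut) (j gx), ← integral_const_mul, ← integral_add (j u) j2]
  apply integral_congr_ae
  filter_upwards [hf] with X hX
  rw [hX]
  ring

/-- `L^2` contractivity of the resolvents. -/
theorem isRes_norm_le {a : ST → ℂ} (ha : Measurable a) {M : ℝ} (hM : ∀ X, ‖a X‖ ≤ M)
    (hre : ∀ X, 0 ≤ (a X).re) {l : ℝ} {f u : L2} (h : IsRes a l f u) : ‖u‖ ≤ ‖f‖ := by
  rw [isRes_iff] at h
  obtain ⟨hE, hv⟩ := h
  have h1 := hv u hE
  have hH := inDom_symHilb (mult symHalf u)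
  have i1 : Integrable (fun X : ST => mult symHilb (mult symHalf u) X * conj (mult symHalf u X)) volume :=
    integrable_mul_conj (Lp.memLp _) (Lp.memLp _)
  have i2 : Integrable (fun X : ST => a X * mult symDx u X * conj (mult symDx u X)) volume := by
    have : MemLp (fun X : ST => a X * mult symDx u X) 2 volume := by
      apply ((Lp.memLp (mult symDx u)).norm.const_mul M).mono
      · exact ha.aestronglyMeasurable.mul (Lp.aestronglyMeasurable _)
      · filter_upwards with X
        rw [norm_mul, norm_mul, norm_norm]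
        exact mul_le_mul_of_nonneg_right ((hM X).trans (le_abs_self M)) (norm_nonneg _)
    exact integrable_mul_conj this (Lp.memLp _)
  have r1 : (∫ X : ST, mult symHilb (mult symHalf u) X * conj (mult symHalf u X)).re = 0 := by
    rw [plancherel]
    have e : ∫ X : ST, (𝓕 (mult symHilb (mult symHalf u)) : L2) X * conj ((𝓕 (mult symHalf u) : L2) X)
        = ∫ ζ : ST, Complex.I * (((2 * Real.pi * ζ 1) * ‖(𝓕 u : L2) ζ‖ ^ 2 : ℝ) : ℂ) := by
      apply integral_congr_ae
      filter_upwards [fourier_mult hH, fourier_mult hE.2] with ζ a1 a2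
      rw [a1, a2, map_mul, conj_symHalf]
      calc symHilb ζ * (symHalf ζ * (𝓕 u : L2) ζ) * (symHalf ζ * conj ((𝓕 u : L2) ζ))
          = (symHilb ζ * (symHalf ζ * symHalf ζ)) * ((𝓕 u : L2) ζ * conj ((𝓕 u : L2) ζ)) := by ring
        _ = _ := by
          rw [symHilb_symHalf, Complex.mul_conj']
          push_cast
          ring
    rw [e, integral_const_mul]
    have e3 : ∫ ζ : ST, (((2 * Real.pi * ζ 1) * ‖(𝓕 u : L2) ζ‖ ^ 2 : ℝ) : ℂ)
        = ((∫ ζ : ST, (2 * Real.pi * ζ 1) * ‖(𝓕 u : L2) ζ‖ ^ 2 : ℝ) : ℂ) := integral_ofReal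
    rw [e3]
    simp
  have r2 : 0 ≤ (∫ X : ST, a X * mult symDx u X * conj (mult symDx u X)).re := by
    have e : ∀ X : ST, a X * mult symDx u X * conj (mult symDx u X) = a X * ((‖mult symDx u X‖ ^ 2 : ℝ) : ℂ) := by
      intro X
      rw [mul_assoc, Complex.mul_conj']
      push_cast
      ring
    have e2 : (∫ X : ST, a X * mult symDx u X * conj (mult symDx u X)).re =
        ∫ X : ST, (a X * mult symDx u X * conj (mult symDx u X)).re := by
      have := integral_re i2
      simpa using this.symm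
    rw [e2]
    apply integral_nonneg
    intro X
    simp only [e]
    rw [Complex.re_mul_ofReal]
    exact mul_nonneg (hre X) (by positivity)
  have r3 : 0 ≤ (form a u u).re := by
    rw [form_eq_int, Complex.add_re, r1, zero_add]
    exact r2
  have h2 := congrArg Complex.re h1
  rw [integral_mul_conj, integral_mul_conj, Complex.add_re] at h2
  have h3 : (inner ℂ u u : ℂ).re = ‖u‖ ^ 2 := by
    have := inner_self_eq_norm_sq (𝕜 := ℂ) u
    simpa using this
  have h4 : (((l : ℂ) ^ 2 * form a u u).re) = l ^ 2 * (form a u u).re := by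
    rw [← Complex.ofReal_pow, Complex.re_ofReal_mul]
  have h5 : (inner ℂ u f : ℂ).re ≤ ‖u‖ * ‖f‖ := by
    have := re_inner_le_norm (𝕜 := ℂ) u f
    simpa using this
  rw [h3, h4] at h2
  have h6 : ‖u‖ ^ 2 ≤ ‖u‖ * ‖f‖ := by
    have : 0 ≤ l ^ 2 * (form a u u).re := mul_nonneg (sq_nonneg l) r3
    linarith
  rcases eq_or_lt_of_le (norm_nonneg u) with h0 | h0
  · rw [← h0]; exact norm_nonneg f
  · nlinarith

theorem lpBdd_two {a : ST → ℂ} (ha : Measurable a) {M : ℝ} (hM : ∀ X, ‖a X‖ ≤ M)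
    (hre : ∀ X, 0 ≤ (a X).re) : LpBdd a 2 := by
  rw [lpBdd_iff]
  refine ⟨1, fun l _ f u h _ => ?_⟩
  have h1 := isRes_norm_le ha hM hre h
  rw [Lp.norm_def, Lp.norm_def] at h1
  have h2 := (ENNReal.toReal_le_toReal (Lp.eLpNorm_ne_top u) (Lp.eLpNorm_ne_top f)).1 h1
  simpa using h2

end Pool.Agent.H133R3.Par
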