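import Pool.Agent.H133R3.ParDefs

set_option autoImplicit false

open MeasureTheory FourierTransform SchwartzMap LineDeriv
open scoped ENNReal ComplexConjugate

namespace Pool.Agent.H133R3.Par

theorem fourier_weak (f g : L2) (m : ST)
    (h : ∀ ψ : 𝓢(ST, ℂ), ∫ x, ψ x • g x = - ∫ x, (∂_{m} ψ) x • f x) :
    (𝓕 g : L2) =ᵐ[volume] fun ζ => (2 * Real.pi * Complex.I * ((inner ℝ ζ m : ℝ) : ℂ)) * (𝓕 f : L2) ζ := by
  have h1 : (Lp.toTemperedDistribution g : 𝓢'(ST, ℂ)) = ∂_{m} (Lp.toTemperedDistribution f : 𝓢'(ST, ℂ)) := by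
    ext ψ
    rw [TemperedDistribution.lineDerivOp_apply_apply, Lp.toTemperedDistribution_apply,
      Lp.toTemperedDistribution_apply, h ψ, ← integral_neg]
    congr 1
    ext x
    simp
  have h2 : (Lp.toTemperedDistribution (𝓕 g : L2) : 𝓢'(ST, ℂ)) =
      (2 * Real.pi * Complex.I : ℂ) • TemperedDistribution.smulLeftCLM ℂ (fun ζ => ((inner ℝ ζ m : ℝ) : ℂ))
        (Lp.toTemperedDistribution (𝓕 f : L2) : 𝓢'(ST, ℂ)) := by
    rw [← Lp.fourier_toTemperedDistribution_eq, h1, TemperedDistribution.fourier_lineDerivOp_eq,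
      Lp.fourier_toTemperedDistribution_eq]
  have htg : (fun ζ : ST => ((inner ℝ ζ m : ℝ) : ℂ)).HasTemperateGrowth := by fun_prop
  have hloc1 : LocallyIntegrable (fun x => (𝓕 g : L2) x) volume :=
    (Lp.memLp (𝓕 g : L2)).locallyIntegrable (by norm_num)
  have hloc2 : LocallyIntegrable (fun x => (𝓕 f : L2) x) volume :=
    (Lp.memLp (𝓕 f : L2)).locallyIntegrable (by norm_num)
  have hloc3 : LocallyIntegrable (fun ζ : ST => (2 * Real.pi * Complex.I * ((inner ℝ ζ m : ℝ) : ℂ)) * (𝓕 f : L2) ζ) volume := by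
    rw [locallyIntegrable_iff] at hloc2 ⊢
    intro K hK
    exact (hloc2 K hK).continuousOn_mul (by fun_prop) hK
  apply ae_eq_of_integral_contDiff_smul_eq hloc1 hloc3
  intro φ φs φc
  have hg₁ : HasCompactSupport (Complex.ofRealCLM ∘ φ) := φc.comp_left rfl
  have hg₂ : ContDiff ℝ (⊤ : ℕ∞) (Complex.ofRealCLM ∘ φ) := by fun_prop
  have h3 := congrArg (fun T : 𝓢'(ST, ℂ) => T (hg₁.toSchwartzMap hg₂)) h2
  simp only [Lp.toTemperedDistribution_apply] at h3
  have h4 : ((2 * Real.pi * Complex.I : ℂ) • TemperedDistribution.smulLeftCLM ℂ (fun ζ => ((inner ℝ ζ m : ℝ) : ℂ))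
        (Lp.toTemperedDistribution (𝓕 f : L2) : 𝓢'(ST, ℂ))) (hg₁.toSchwartzMap hg₂) =
      (2 * Real.pi * Complex.I : ℂ) • ∫ x, (SchwartzMap.smulLeftCLM ℂ (fun ζ => ((inner ℝ ζ m : ℝ) : ℂ)) (hg₁.toSchwartzMap hg₂)) x • (𝓕 f : L2) x := by
    simp [TemperedDistribution.smulLeftCLM_apply_apply]
  rw [h4] at h3
  simp only [SchwartzMap.smulLeftCLM_apply_apply htg] at h3
  simp only [HasCompactSupport.toSchwartzMap_toFun, Function.comp_apply, Complex.ofRealCLM_apply, smul_eq_mul] at h3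
  simp only [Complex.real_smul]
  rw [h3, ← integral_const_mul]
  congr 1
  ext x
  ring

end Pool.Agent.H133R3.Par
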