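import Pool.Agent.H133R3.ParCut

set_option autoImplicit false

open MeasureTheory
open scoped ENNReal ComplexConjugate

namespace Pool.Agent.H133R3.Par

noncomputable section

theorem lineDeriv_x {k : ℝ → ℝ} (hk : ∀ t, t < 1 / 2 → k t = 0) {h h' : ℝ → ℝ → ℂ}
    (hd : ∀ x t : ℝ, 0 < t → HasDerivAt (fun y : ℝ => h y t) (h' x t) x) (X : ST) :
    HasLineDerivAt ℝ (fun X : ST => (k (X 1) : ℂ) * h (X 0) (X 1)) ((k (X 1) : ℂ) * h' (X 0) (X 1)) X ex := by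
  unfold HasLineDerivAt
  have e0 : ∀ s : ℝ, (X + s • ex) 0 = X 0 + s := by intro s; simp
  have e1 : ∀ s : ℝ, (X + s • ex) 1 = X 1 := by intro s; simp
  simp only [e0, e1]
  by_cases ht : X 1 < 1 / 2
  · simp only [hk _ ht, Complex.ofReal_zero, zero_mul]
    exact hasDerivAt_const _ _
  · push Not at ht
    have h1 := hd (X 0) (X 1) (by linarith)
    have h2 : HasDerivAt (fun s : ℝ => h (X 0 + s) (X 1)) (h' (X 0) (X 1)) 0 := by
      have h3 : HasDerivAt (fun s : ℝ => X 0 + s) 1 0 := by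
        simpa using (hasDerivAt_id (0 : ℝ)).const_add (X 0)
      have h1' : HasDerivAt (fun y : ℝ => h y (X 1)) (h' (X 0) (X 1)) (X 0 + 0) := by simpa using h1
      exact (HasDerivAt.scomp (0 : ℝ) h1' h3).congr_deriv (by simp)
    exact h2.const_mul _

theorem lineDeriv_t {k k' : ℝ → ℝ} (hk : ∀ t, t < 1 / 2 → k t = 0) (hk' : ∀ t, t < 1 / 2 → k' t = 0)
    (hkd : ∀ t, HasDerivAt k (k' t) t) {h h' : ℝ → ℝ → ℂ}
    (hd : ∀ x t : ℝ, 0 < t → HasDerivAt (fun s : ℝ => h x s) (h' x t) t) (X : ST) :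
    HasLineDerivAt ℝ (fun X : ST => (k (X 1) : ℂ) * h (X 0) (X 1))
      ((k' (X 1) : ℂ) * h (X 0) (X 1) + (k (X 1) : ℂ) * h' (X 0) (X 1)) X et := by
  unfold HasLineDerivAt
  have e0 : ∀ s : ℝ, (X + s • et) 0 = X 0 := by intro s; simp
  have e1 : ∀ s : ℝ, (X + s • et) 1 = X 1 + s := by intro s; simp
  simp only [e0, e1]
  have h3 : HasDerivAt (fun s : ℝ => X 1 + s) 1 0 := by
    simpa using (hasDerivAt_id (0 : ℝ)).const_add (X 1)
  by_cases ht : X 1 < 1 / 2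
  · simp only [hk _ ht, hk' _ ht, Complex.ofReal_zero, zero_mul, add_zero]
    apply (hasDerivAt_const (0 : ℝ) (0 : ℂ)).congr_of_eventuallyEq
    have : ∀ᶠ s : ℝ in nhds 0, X 1 + s < 1 / 2 := by
      have hc : Continuous fun s : ℝ => X 1 + s := by fun_prop
      apply (hc.continuousAt (x := (0 : ℝ))).eventually_lt_const
      simpa using ht
    filter_upwards [this] with s hs
    rw [hk _ hs]
    simp
  · push Not at ht
    have h1 := hd (X 0) (X 1) (by linarith)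
    have h1' : HasDerivAt (fun s : ℝ => h (X 0) s) (h' (X 0) (X 1)) (X 1 + 0) := by simpa using h1
    have h2 : HasDerivAt (fun s : ℝ => h (X 0) (X 1 + s)) (h' (X 0) (X 1)) 0 := by
      exact (HasDerivAt.scomp (0 : ℝ) h1' h3).congr_deriv (by simp)
    have h4 : HasDerivAt (fun s : ℝ => ((k (X 1 + s) : ℝ) : ℂ)) ((k' (X 1) : ℝ) : ℂ) 0 := by
      have h5 : HasDerivAt k (k' (X 1)) (X 1 + 0) := by simpa using hkd (X 1)
      have h6 : HasDerivAt (fun s : ℝ => k (X 1 + s)) (k' (X 1)) 0 :=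
        (HasDerivAt.scomp (0 : ℝ) h5 h3).congr_deriv (by simp)
      exact h6.ofReal_comp
    have := h4.mul h2
    refine this.congr_deriv ?_
    simp

theorem meas_th : Measurable th := th_contDiff.continuous.measurable
theorem meas_mm (l : ℝ) : Measurable (mm l) := by
  unfold mm
  exact meas_th.mul (by fun_prop)
theorem meas_kk (l : ℝ) : Measurable (kk l) := by
  unfold kk
  exact dth_cont.measurable.mul (by fun_prop)
theorem meas_mm' (l : ℝ) : Measurable (mm' l) := by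
  unfold mm'
  exact (dth_cont.measurable.mul (by fun_prop)).sub ((meas_th.mul (by fun_prop)).div_const _)

theorem meas_w : Measurable fun X : ST => w (X 0) (X 1) := by
  unfold w Ef
  fun_prop
theorem meas_wx : Measurable fun X : ST => wx (X 0) (X 1) := by
  unfold wx Ef Den
  fun_prop
theorem meas_GG : Measurable fun X : ST => GG (X 0) (X 1) := by
  unfold GG Ef Num
  fun_prop
theorem meas_Gx : Measurable fun X : ST => Gx (X 0) (X 1) := by
  unfold Gx Ef Num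
  fun_prop

theorem meas_k {k : ℝ → ℝ} (hk : Measurable k) : Measurable fun X : ST => ((k (X 1) : ℝ) : ℂ) :=
  Complex.measurable_ofReal.comp (hk.comp (by fun_prop))

def Vf (l : ℝ) (X : ST) : ℂ := (mm l (X 1) : ℂ) * w (X 0) (X 1)
def Vt (l : ℝ) (X : ST) : ℂ := (mm' l (X 1) : ℂ) * w (X 0) (X 1) + (mm l (X 1) : ℂ) * Gx (X 0) (X 1)
def Vx (l : ℝ) (X : ST) : ℂ := (mm l (X 1) : ℂ) * wx (X 0) (X 1)
def Gf (l : ℝ) (X : ST) : ℂ := (mm l (X 1) : ℂ) * GG (X 0) (X 1)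
def Gxf (l : ℝ) (X : ST) : ℂ := (mm l (X 1) : ℂ) * Gx (X 0) (X 1)
def Hf (l : ℝ) (X : ST) : ℂ := (kk l (X 1) : ℂ) * w (X 0) (X 1)

theorem memLp_kh {l : ℝ} (hl : 0 < l) {k : ℝ → ℝ} (hkm : Measurable k) (hk0 : ∀ t, t < 1 / 2 → k t = 0)
    {Ck : ℝ} (hCk : 0 ≤ Ck) (hk : ∀ t, |k t| ≤ Ck * Real.exp (-(t / l ^ 2))) {h : ℝ → ℝ → ℂ} (hh : PolyBd h)
    (hm : Measurable fun X : ST => h (X 0) (X 1)) {p : ℝ} (hp : 1 ≤ p) :
    MemLp (fun X : ST => (k (X 1) : ℂ) * h (X 0) (X 1)) (ENNReal.ofReal p) volume := by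
  obtain ⟨C, hC⟩ := box_bound hl hk0 hCk hk hh
  exact memLp_of_box ((meas_k hkm).mul hm).aestronglyMeasurable hC hp

theorem memLp_kh2 {l : ℝ} (hl : 0 < l) {k : ℝ → ℝ} (hkm : Measurable k) (hk0 : ∀ t, t < 1 / 2 → k t = 0)
    {Ck : ℝ} (hCk : 0 ≤ Ck) (hk : ∀ t, |k t| ≤ Ck * Real.exp (-(t / l ^ 2))) {h : ℝ → ℝ → ℂ} (hh : PolyBd h)
    (hm : Measurable fun X : ST => h (X 0) (X 1)) :
    MemLp (fun X : ST => (k (X 1) : ℂ) * h (X 0) (X 1)) 2 volume := by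
  have := memLp_kh hl hkm hk0 hCk hk hh hm (p := 2) (by norm_num)
  simpa using this

theorem Vf_mem {l : ℝ} (hl : 0 < l) {p : ℝ} (hp : 1 ≤ p) : MemLp (Vf l) (ENNReal.ofReal p) volume :=
  memLp_kh hl (meas_mm l) (fun _ h => mm_zero h) zero_le_one (mm_bound l) polyBd_w meas_w hp
theorem Vf_mem2 {l : ℝ} (hl : 0 < l) : MemLp (Vf l) 2 volume :=
  memLp_kh2 hl (meas_mm l) (fun _ h => mm_zero h) zero_le_one (mm_bound l) polyBd_w meas_w
theorem Vx_mem2 {l : ℝ} (hl : 0 < l) : MemLp (Vx l) 2 volume :=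
  memLp_kh2 hl (meas_mm l) (fun _ h => mm_zero h) zero_le_one (mm_bound l) polyBd_wx meas_wx
theorem Gf_mem2 {l : ℝ} (hl : 0 < l) : MemLp (Gf l) 2 volume :=
  memLp_kh2 hl (meas_mm l) (fun _ h => mm_zero h) zero_le_one (mm_bound l) polyBd_GG meas_GG
theorem Gxf_mem2 {l : ℝ} (hl : 0 < l) : MemLp (Gxf l) 2 volume :=
  memLp_kh2 hl (meas_mm l) (fun _ h => mm_zero h) zero_le_one (mm_bound l) polyBd_Gx meas_Gx
theorem Vt_mem2 {l : ℝ} (hl : 0 < l) : MemLp (Vt l) 2 volume := by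
  obtain ⟨K, hK0, hK⟩ := mm'_bound l
  exact (memLp_kh2 hl (meas_mm' l) (fun _ h => mm'_zero h) hK0 hK polyBd_w meas_w).add (Gxf_mem2 hl)
theorem Hf_mem {l : ℝ} (hl : 0 < l) {p : ℝ} (hp : 1 ≤ p) : MemLp (Hf l) (ENNReal.ofReal p) volume := by
  obtain ⟨K, hK0, hK⟩ := kk_bound
  exact memLp_kh hl (meas_kk l) (fun _ h => kk_zero h) hK0 (hK l) polyBd_w meas_w hp
theorem Hf_mem2 {l : ℝ} (hl : 0 < l) : MemLp (Hf l) 2 volume := by
  have := Hf_mem hl (p := 2) (by norm_num)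
  simpa using this

/-- `V_l` is the resolvent of `l^2 H_l`. -/
theorem isRes_V {l : ℝ} (hl : 0 < l) :
    IsRes coef l (((Hf_mem2 hl).const_mul ((l : ℂ) ^ 2)).toLp _) ((Vf_mem2 hl).toLp _) := by
  have ht : WeakD et ((Vf_mem2 hl).toLp _) ((Vt_mem2 hl).toLp _) :=
    weakD_of_hasLineDerivAt _ _ (fun X => lineDeriv_t (fun _ h => mm_zero h) (fun _ h => mm'_zero h)
      (mm_hasDerivAt l) (fun x t h => hasDerivAt_w_t h x) X)
  have hx : WeakD ex ((Vf_mem2 hl).toLp _) ((Vx_mem2 hl).toLp _) :=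
    weakD_of_hasLineDerivAt _ _ (fun X => lineDeriv_x (fun _ h => mm_zero h)
      (fun x t h => hasDerivAt_w_x h x) X)
  have hgx : WeakD ex ((Gf_mem2 hl).toLp _) ((Gxf_mem2 hl).toLp _) :=
    weakD_of_hasLineDerivAt _ _ (fun X => lineDeriv_x (fun _ h => mm_zero h)
      (fun x t h => hasDerivAt_G_x h x) X)
  refine isRes_of ht hx ?_ hgx ?_
  · filter_upwards [(Gf_mem2 hl).coeFn_toLp, (Vx_mem2 hl).coeFn_toLp] with X h1 h2
    rw [h1, h2]
    unfold Gf Vx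
    by_cases h : X 1 < 1 / 2
    · rw [mm_zero h]; simp
    · push Not at h
      have h0 : 0 < X 1 := by linarith
      rw [GG_eq h0, coef, if_pos h0]
      ring
  · filter_upwards [((Hf_mem2 hl).const_mul ((l : ℂ) ^ 2)).coeFn_toLp, (Vf_mem2 hl).coeFn_toLp,
      (Vt_mem2 hl).coeFn_toLp, (Gxf_mem2 hl).coeFn_toLp] with X h1 h2 h3 h4
    rw [h1, h2, h3, h4]
    have hlc : (l : ℂ) ≠ 0 := by exact_mod_cast hl.ne'
    unfold Hf Vf Vt Gxf mm' kk mm
    push_cast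
    field_simp
    ring

/-! ### Lower bound for the norm of `V_l` -/

def RR (l : ℝ) : Set ST := (WithLp.ofLp : ST → (Fin 2 → ℝ)) ⁻¹' Set.Icc ![l, l ^ 2 / 2] ![2 * l, l ^ 2]

theorem RR_meas (l : ℝ) : MeasurableSet (RR l) :=
  (PiLp.volume_preserving_ofLp (Fin 2)).measurable measurableSet_Icc

theorem RR_vol {l : ℝ} (hl : 0 < l) : volume (RR l) = ENNReal.ofReal (l ^ 3 / 2) := by
  unfold RR
  rw [(PiLp.volume_preserving_ofLp (Fin 2)).measure_preimage measurableSet_Icc.nullMeasurableSet,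
    Real.volume_Icc_pi]
  simp only [Fin.prod_univ_two, Matrix.cons_val_zero, Matrix.cons_val_one]
  rw [← ENNReal.ofReal_mul (by linarith)]
  congr 1
  ring

theorem RR_mem {l : ℝ} {X : ST} (h : X ∈ RR l) : l ≤ X 0 ∧ X 0 ≤ 2 * l ∧ l ^ 2 / 2 ≤ X 1 ∧ X 1 ≤ l ^ 2 := by
  unfold RR at h
  rw [Set.mem_preimage, Set.mem_Icc, Pi.le_def, Pi.le_def] at h
  have h1 := h.1 0
  have h2 := h.1 1
  have h3 := h.2 0
  have h4 := h.2 1
  simp at h1 h2 h3 h4
  exact ⟨h1, h3, h2, h4⟩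

theorem Vf_lower {l : ℝ} (hl : 2 ≤ l) {X : ST} (hX : X ∈ RR l) :
    Real.exp (-97) * (l ^ 2 / 2) ^ (3 / 100 : ℝ) * l⁻¹ ≤ ‖Vf l X‖ := by
  obtain ⟨h1, h2, h3, h4⟩ := RR_mem hX
  obtain ⟨x, hx⟩ : ∃ x, x = X 0 := ⟨_, rfl⟩
  obtain ⟨t, ht⟩ : ∃ t, t = X 1 := ⟨_, rfl⟩
  unfold Vf
  rw [← hx] at h1 h2 ⊢
  rw [← ht] at h3 h4 ⊢
  have hl0 : 0 < l := by linarith
  have ht1 : 1 ≤ t := by nlinarith
  have ht0 : 0 < t := by linarith
  have hx0 : 0 < x := by linarith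
  unfold mm w
  rw [th_one ht1, one_mul, norm_mul, norm_mul, norm_mul, norm_Ef, Complex.norm_real, Complex.norm_real,
    Real.norm_of_nonneg (Real.exp_pos _).le, Real.norm_of_nonneg (by positivity)]
  have hS1 : 1 ≤ x ^ 2 / t := by
    rw [le_div_iff₀ ht0]; nlinarith
  have hS8 : x ^ 2 / t ≤ 8 := by
    rw [div_le_iff₀ ht0]; nlinarith
  have b1 : Real.exp (-1) ≤ Real.exp (-(t / l ^ 2)) := by
    apply Real.exp_le_exp.2
    have : t / l ^ 2 ≤ 1 := by rw [div_le_iff₀ (by positivity)]; linarith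
    linarith
  have b2 : l⁻¹ ≤ x / t := by
    rw [inv_eq_one_div, div_le_div_iff₀ hl0 ht0]
    nlinarith
  have b3 : 1 ≤ ‖2 * (cc - zz) - 2 * zz * cc * ((x ^ 2 / t : ℝ) : ℂ)‖ := by
    refine le_trans ?_ (Complex.abs_im_le_norm _)
    have : (2 * (cc - zz) - 2 * zz * cc * ((x ^ 2 / t : ℝ) : ℂ)).im = -2 - 144 * (x ^ 2 / t) := by
      rw [Complex.sub_im, Complex.im_mul_ofReal]
      simp [cc, zz]
      ring
    rw [this, abs_of_neg (by linarith)]
    linarith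
  have b4 : Real.exp (-96) * (l ^ 2 / 2) ^ (3 / 100 : ℝ) ≤ Real.exp (3 / 100 * Real.log t - 12 * (x ^ 2 / t)) := by
    rw [Real.rpow_def_of_pos (by positivity), ← Real.exp_add]
    apply Real.exp_le_exp.2
    have := Real.log_le_log (by positivity) h3
    linarith
  calc Real.exp (-97) * (l ^ 2 / 2) ^ (3 / 100 : ℝ) * l⁻¹
      = Real.exp (-1) * (l⁻¹ * 1 * (Real.exp (-96) * (l ^ 2 / 2) ^ (3 / 100 : ℝ))) := by
        have : Real.exp (-97) = Real.exp (-1) * Real.exp (-96) := by rw [← Real.exp_add]; norm_num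
        rw [this]; ring
    _ ≤ _ := by
        apply mul_le_mul b1 _ (by positivity) (Real.exp_pos _).le
        apply mul_le_mul _ b4 (by positivity) (by positivity)
        exact mul_le_mul b2 b3 (by norm_num) (by positivity)

theorem Vf_norm_lower {l : ℝ} (hl : 2 ≤ l) {p : ℝ} (hp : 1 ≤ p) :
    ENNReal.ofReal (Real.exp (-97) * (l ^ 2 / 2) ^ (3 / 100 : ℝ) * l⁻¹ * (l ^ 3 / 2) ^ (1 / p)) ≤
      eLpNorm (Vf l) (ENNReal.ofReal p) volume := by
  have hl0 : 0 < l := by linarith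
  have hp0 : ENNReal.ofReal p ≠ 0 := by
    simp only [ne_eq, ENNReal.ofReal_eq_zero, not_le]; linarith
  have h1 : eLpNorm ((RR l).indicator (fun _ => (Real.exp (-97) * (l ^ 2 / 2) ^ (3 / 100 : ℝ) * l⁻¹ : ℝ)))
      (ENNReal.ofReal p) volume ≤ eLpNorm (Vf l) (ENNReal.ofReal p) volume := by
    apply eLpNorm_mono
    intro X
    by_cases hX : X ∈ RR l
    · rw [Set.indicator_of_mem hX, Real.norm_of_nonneg (by positivity)]
      exact Vf_lower hl hX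
    · rw [Set.indicator_of_notMem hX]
      simp
  refine le_trans (le_of_eq ?_) h1
  rw [eLpNorm_indicator_const (RR_meas l) hp0 ENNReal.ofReal_ne_top, RR_vol hl0,
    ENNReal.toReal_ofReal (by linarith), ENNReal.ofReal_mul (by positivity),
    ENNReal.ofReal_rpow_of_nonneg (by positivity) (by positivity), Real.enorm_of_nonneg (by positivity)]

theorem Hf_norm_le {l : ℝ} (hl : 1 ≤ l) {p : ℝ} :
    eLpNorm (Hf l) (ENNReal.ofReal p) volume ≤ ENNReal.ofReal (Real.exp 1) * eLpNorm (Hf 1) (ENNReal.ofReal p) volume := by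
  apply eLpNorm_le_mul_eLpNorm_of_ae_le_mul
  filter_upwards with X
  unfold Hf
  rw [norm_mul, norm_mul, ← mul_assoc]
  apply mul_le_mul_of_nonneg_right _ (norm_nonneg _)
  unfold kk
  rw [Complex.norm_real, Complex.norm_real, norm_mul, norm_mul]
  by_cases h1 : 1 < X 1
  · rw [dth_zero' h1]; simp
  by_cases h2 : X 1 < 1 / 2
  · rw [dth_zero h2]; simp
  push Not at h1 h2
  have h3 : ‖Real.exp (-(X 1 / l ^ 2))‖ ≤ Real.exp 1 * ‖Real.exp (-(X 1 / 1 ^ 2))‖ := by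
    rw [Real.norm_of_nonneg (Real.exp_pos _).le, Real.norm_of_nonneg (Real.exp_pos _).le, ← Real.exp_add]
    apply Real.exp_le_exp.2
    have : 0 ≤ X 1 / l ^ 2 := by
      apply div_nonneg (by linarith) (by positivity)
    norm_num
    linarith
  calc ‖deriv th (X 1)‖ * ‖Real.exp (-(X 1 / l ^ 2))‖ ≤ ‖deriv th (X 1)‖ * (Real.exp 1 * ‖Real.exp (-(X 1 / 1 ^ 2))‖) :=
        mul_le_mul_of_nonneg_left h3 (norm_nonneg _)
    _ = _ := by ring

theorem not_LpBdd {p : ℝ} (hp : 1 ≤ p) (hp2 : p < 51 / 50) : ¬ LpBdd coef p := by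
  rw [lpBdd_iff]
  rintro ⟨C, hC⟩
  -- for all l ≥ 2
  obtain ⟨A, hA⟩ : ∃ A : ℝ, A = (eLpNorm (Hf 1) (ENNReal.ofReal p) volume).toReal := ⟨_, rfl⟩
  have hAfin : eLpNorm (Hf 1) (ENNReal.ofReal p) volume = ENNReal.ofReal A := by
    rw [hA, ENNReal.ofReal_toReal (Hf_mem one_pos hp).eLpNorm_ne_top]
  have hA0 : 0 ≤ A := by rw [hA]; exact ENNReal.toReal_nonneg
  have key : ∀ l : ℝ, 2 ≤ l → Real.exp (-97) * (l ^ 2 / 2) ^ (3 / 100 : ℝ) * l⁻¹ * (l ^ 3 / 2) ^ (1 / p) ≤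
      |C| * (l ^ 2 * (Real.exp 1 * A)) := by
    intro l hl
    have hl0 : 0 < l := by linarith
    have h1 := hC l hl0 _ _ (isRes_V hl0) ?_
    · rw [eLpNorm_congr_ae (Vf_mem2 hl0).coeFn_toLp,
        eLpNorm_congr_ae ((Hf_mem2 hl0).const_mul ((l : ℂ) ^ 2)).coeFn_toLp] at h1
      have h2 : eLpNorm (fun X => (l : ℂ) ^ 2 * Hf l X) (ENNReal.ofReal p) volume ≤
          ENNReal.ofReal (l ^ 2 * (Real.exp 1 * A)) := by
        have h3 : eLpNorm (fun X => (l : ℂ) ^ 2 * Hf l X) (ENNReal.ofReal p) volume ≤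
            ENNReal.ofReal (l ^ 2) * eLpNorm (Hf l) (ENNReal.ofReal p) volume := by
          apply eLpNorm_le_mul_eLpNorm_of_ae_le_mul
          filter_upwards with X
          rw [norm_mul, norm_pow, Complex.norm_real, Real.norm_of_nonneg hl0.le]
        refine h3.trans ?_
        rw [ENNReal.ofReal_mul (by positivity), ENNReal.ofReal_mul (by positivity)]
        apply mul_le_mul_right
        rw [← hAfin]
        exact Hf_norm_le (by linarith)
      have h4 := (Vf_norm_lower hl hp).trans h1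
      have h5 : ENNReal.ofReal C * eLpNorm (fun X => (l : ℂ) ^ 2 * Hf l X) (ENNReal.ofReal p) volume ≤
          ENNReal.ofReal (|C| * (l ^ 2 * (Real.exp 1 * A))) := by
        rw [ENNReal.ofReal_mul (abs_nonneg C)]
        exact mul_le_mul' (ENNReal.ofReal_le_ofReal (le_abs_self C)) h2
      exact (ENNReal.ofReal_le_ofReal_iff (by positivity)).1 (h4.trans h5)
    · exact (memLp_congr_ae ((Hf_mem2 hl0).const_mul ((l : ℂ) ^ 2)).coeFn_toLp).2
        ((Hf_mem hl0 hp).const_mul ((l : ℂ) ^ 2))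
  -- asymptotics
  have hexp : 0 < 3 / p - 147 / 50 := by
    rw [sub_pos, div_lt_div_iff₀ (by norm_num) (by linarith)]
    linarith
  obtain ⟨B, hB⟩ : ∃ B : ℝ, B = Real.exp (-97) * (1 / 2 : ℝ) ^ (3 / 100 : ℝ) * (1 / 2 : ℝ) ^ (1 / p) := ⟨_, rfl⟩
  have hB0 : 0 < B := by rw [hB]; positivity
  have key2 : ∀ l : ℝ, 2 ≤ l → l ^ (3 / p - 147 / 50 : ℝ) ≤ |C| * (Real.exp 1 * A) / B := by
    intro l hl
    have hl0 : 0 < l := by linarith
    have h1 := key l hl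
    rw [le_div_iff₀ hB0]
    have e1 : (l ^ 2 / 2 : ℝ) ^ (3 / 100 : ℝ) = l ^ (6 / 100 : ℝ) * (1 / 2 : ℝ) ^ (3 / 100 : ℝ) := by
      rw [div_eq_mul_one_div, Real.mul_rpow (by positivity) (by positivity), ← Real.rpow_natCast, ← Real.rpow_mul hl0.le]
      norm_num
    have e2 : (l ^ 3 / 2 : ℝ) ^ (1 / p : ℝ) = l ^ (3 / p : ℝ) * (1 / 2 : ℝ) ^ (1 / p : ℝ) := by
      rw [div_eq_mul_one_div, Real.mul_rpow (by positivity) (by positivity), ← Real.rpow_natCast, ← Real.rpow_mul hl0.le]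
      congr 2
      push_cast
      ring
    have e3 : l ^ (3 / p - 147 / 50 : ℝ) = l ^ (6 / 100 : ℝ) * l ^ (3 / p : ℝ) * l⁻¹ * (l ^ 2)⁻¹ := by
      rw [← Real.rpow_neg_one, ← Real.rpow_natCast l 2, ← Real.rpow_neg hl0.le, ← Real.rpow_add hl0, ← Real.rpow_add hl0,
        ← Real.rpow_add hl0]
      congr 1
      push_cast
      ring
    rw [e1, e2] at h1
    rw [e3]
    have hl2 : 0 < l ^ 2 := by positivity
    calc l ^ (6 / 100 : ℝ) * l ^ (3 / p : ℝ) * l⁻¹ * (l ^ 2)⁻¹ * B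
        = (Real.exp (-97) * (l ^ (6 / 100 : ℝ) * (1 / 2 : ℝ) ^ (3 / 100 : ℝ)) * l⁻¹ *
            (l ^ (3 / p : ℝ) * (1 / 2 : ℝ) ^ (1 / p : ℝ))) * (l ^ 2)⁻¹ := by rw [hB]; ring
      _ ≤ (|C| * (l ^ 2 * (Real.exp 1 * A))) * (l ^ 2)⁻¹ := mul_le_mul_of_nonneg_right h1 (by positivity)
      _ = |C| * (Real.exp 1 * A) := by field_simp
  have hlim := tendsto_rpow_atTop hexp
  obtain ⟨l, hl2, hl⟩ := ((hlim.eventually_gt_atTop (|C| * (Real.exp 1 * A) / B)).and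
    (Filter.eventually_ge_atTop (2 : ℝ))).exists
  exact absurd (key2 l hl) (not_le.2 hl2)

theorem main : (51 / 50 : ℝ) ≤ pMinus coef := by
  unfold pMinus
  apply le_csInf
  · exact ⟨2, by norm_num, le_rfl, lpBdd_two coef_meas coef_norm (fun X => by have := coef_re X; linarith)⟩
  · rintro p ⟨h1, _, h3⟩
    by_contra hlt
    push Not at hlt
    exact not_LpBdd h1 hlt h3

end

end Pool.Agent.H133R3.Par
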