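import Pool.Agent.H133R3.ParBd

set_option autoImplicit false

open MeasureTheory
open scoped ENNReal ComplexConjugate

namespace Pool.Agent.H133R3.Par

noncomputable section

/-! ### The profile -/

def zz : ℂ := 12 + 6 * Complex.I
def cc : ℂ := 2 + 5 * Complex.I
def Gm : ℂ := 3 / 100 - (13 / 10) * Complex.I

def Num (S : ℝ) : ℂ := Gm + (Gm * cc - cc + zz) * S + zz * cc * (S : ℂ) ^ 2
def Den (S : ℝ) : ℂ := 2 * (cc - zz) + (4 * zz ^ 2 - 10 * zz * cc) * S + 4 * zz ^ 2 * cc * (S : ℂ) ^ 2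

def numRe (S : ℝ) : ℝ := 3 / 100 + 1656 / 100 * S - 6 * S ^ 2
def numIm (S : ℝ) : ℝ := -(13 / 10) - 145 / 100 * S + 72 * S ^ 2
def denRe (S : ℝ) : ℝ := -20 + 492 * S - 2016 * S ^ 2
def denIm (S : ℝ) : ℝ := -2 - 144 * S + 3312 * S ^ 2

theorem Num_eq (S : ℝ) : Num S = ⟨numRe S, numIm S⟩ := by
  apply Complex.ext
  · simp [Num, numRe, Gm, cc, zz, pow_two]
    ring
  · simp [Num, numIm, Gm, cc, zz, pow_two]
    ring

theorem Den_eq (S : ℝ) : Den S = ⟨denRe S, denIm S⟩ := by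
  apply Complex.ext
  · simp [Den, denRe, cc, zz, pow_two]
    ring
  · simp [Den, denIm, cc, zz, pow_two]
    ring

def QQ (S : ℝ) : ℝ := numRe S * denRe S + numIm S * denIm S

theorem key1 {S : ℝ} (hS : 0 ≤ S) : (denRe S ^ 2 + denIm S ^ 2) / 300 ≤ QQ S := by
  unfold QQ numRe denRe numIm denIm
  nlinarith [sq_nonneg (S ^ 2 - 0.1041 * S + 0.0011), sq_nonneg (S - 0.0325), pow_nonneg hS 3, sq_nonneg S]

theorem key2 {S : ℝ} (hS : 0 ≤ S) : numRe S ^ 2 + numIm S ^ 2 ≤ 5 * QQ S := by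
  unfold QQ numRe denRe numIm denIm
  nlinarith [sq_nonneg (S ^ 2 - 0.1031 * S + 0.00206), sq_nonneg (S - 0.0395), pow_nonneg hS 3, sq_nonneg S]

theorem key3 {S : ℝ} (hS : 0 ≤ S) : 0 < QQ S := by
  unfold QQ numRe denRe numIm denIm
  nlinarith [sq_nonneg (S ^ 2 - 0.1041 * S + 0.0011), sq_nonneg (S - 0.0325), pow_nonneg hS 3, sq_nonneg S]

theorem den_pos {S : ℝ} (hS : 0 ≤ S) : 0 < denRe S ^ 2 + denIm S ^ 2 := by
  by_contra h
  push Not at h
  have h1 : denRe S = 0 := by nlinarith [sq_nonneg (denRe S), sq_nonneg (denIm S)]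
  have h2 : denIm S = 0 := by nlinarith [sq_nonneg (denRe S), sq_nonneg (denIm S)]
  have := key3 hS
  unfold QQ at this
  rw [h1, h2] at this
  simp at this

theorem Den_ne {S : ℝ} (hS : 0 ≤ S) : Den S ≠ 0 := by
  rw [Den_eq]
  intro h
  have h1 := congrArg Complex.re h
  have h2 := congrArg Complex.im h
  simp at h1 h2
  have := den_pos hS
  rw [h1, h2] at this
  simp at this

theorem ratio_re {S : ℝ} (hS : 0 ≤ S) : 1 / 300 ≤ (Num S / Den S).re := by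
  rw [Num_eq, Den_eq, Complex.div_re]
  simp only [Complex.normSq_mk]
  have h1 := den_pos hS
  have h2 := key1 hS
  have e : numRe S * denRe S / (denRe S * denRe S + denIm S * denIm S) +
      numIm S * denIm S / (denRe S * denRe S + denIm S * denIm S) = QQ S / (denRe S ^ 2 + denIm S ^ 2) := by
    unfold QQ
    rw [← add_div, sq, sq]
  rw [e, le_div_iff₀ h1]
  linarith

theorem ratio_norm {S : ℝ} (hS : 0 ≤ S) : ‖Num S / Den S‖ ≤ 5 := by
  rw [norm_div, div_le_iff₀ (norm_pos_iff.2 (Den_ne hS))]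
  have h1 : ‖Num S‖ ^ 2 = numRe S ^ 2 + numIm S ^ 2 := by
    rw [Num_eq, ← Complex.normSq_eq_norm_sq, Complex.normSq_mk]; ring
  have h2 : ‖Den S‖ ^ 2 = denRe S ^ 2 + denIm S ^ 2 := by
    rw [Den_eq, ← Complex.normSq_eq_norm_sq, Complex.normSq_mk]; ring
  have h3 : QQ S = (Num S * conj (Den S)).re := by
    rw [Num_eq, Den_eq]
    simp [QQ]
  have h4 : QQ S ≤ ‖Num S‖ * ‖Den S‖ := by
    rw [h3]
    calc (Num S * conj (Den S)).re ≤ ‖Num S * conj (Den S)‖ := Complex.re_le_norm _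
      _ = _ := by rw [norm_mul, Complex.norm_conj]
  have h5 := key2 hS
  have h6 : ‖Num S‖ ^ 2 ≤ 5 * (‖Num S‖ * ‖Den S‖) := by rw [h1]; linarith
  rcases eq_or_lt_of_le (norm_nonneg (Num S)) with h0 | h0
  · rw [← h0]; positivity
  · nlinarith

/-- The coefficient. -/
def coef (X : ST) : ℂ := if 0 < X 1 then Num ((X 0) ^ 2 / X 1) / Den ((X 0) ^ 2 / X 1) else 1

theorem coef_meas : Measurable coef := by
  unfold coef Num Den
  apply Measurable.ite
  · exact measurableSet_lt measurable_const (by fun_prop)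
  · fun_prop
  · exact measurable_const

theorem coef_norm (X : ST) : ‖coef X‖ ≤ 5 := by
  unfold coef
  split_ifs with h
  · exact ratio_norm (by positivity)
  · simp

theorem coef_re (X : ST) : 1 / 300 ≤ (coef X).re := by
  unfold coef
  split_ifs with h
  · exact ratio_re (by positivity)
  · simp; norm_num

/-! ### The self-similar solution -/

def Ef (x t : ℝ) : ℂ := Complex.exp (Gm * ((Real.log t : ℝ) : ℂ) - zz * ((x ^ 2 / t : ℝ) : ℂ))

def w (x t : ℝ) : ℂ := ((x / t : ℝ) : ℂ) * (2 * (cc - zz) - 2 * zz * cc * ((x ^ 2 / t : ℝ) : ℂ)) * Ef x t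
def wx (x t : ℝ) : ℂ := ((1 / t : ℝ) : ℂ) * Den (x ^ 2 / t) * Ef x t
def GG (x t : ℝ) : ℂ := ((1 / t : ℝ) : ℂ) * Num (x ^ 2 / t) * Ef x t
def Gx (x t : ℝ) : ℂ := ((x / t ^ 2 : ℝ) : ℂ) * (2 * (Gm * cc - cc + zz) + 4 * zz * cc * ((x ^ 2 / t : ℝ) : ℂ)
  - 2 * zz * Num (x ^ 2 / t)) * Ef x t

theorem hasDerivAt_S_x (x t : ℝ) : HasDerivAt (fun y : ℝ => ((y ^ 2 / t : ℝ) : ℂ)) ((2 * x / t : ℝ) : ℂ) x := by
  have : HasDerivAt (fun y : ℝ => y ^ 2 / t) (2 * x / t) x := by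
    simpa using (hasDerivAt_pow 2 x).div_const t
  exact this.ofReal_comp

theorem hasDerivAt_S_t {t : ℝ} (ht : t ≠ 0) (x : ℝ) :
    HasDerivAt (fun s : ℝ => ((x ^ 2 / s : ℝ) : ℂ)) ((-(x ^ 2 / t ^ 2) : ℝ) : ℂ) t := by
  have : HasDerivAt (fun s : ℝ => x ^ 2 / s) (-(x ^ 2 / t ^ 2)) t := by
    have h := (hasDerivAt_inv ht).const_mul (x ^ 2)
    simp only [div_eq_mul_inv]
    exact h.congr_deriv (by ring)
  exact this.ofReal_comp

theorem hasDerivAt_Ef_x (x t : ℝ) :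
    HasDerivAt (fun y : ℝ => Ef y t) (Ef x t * (-(zz * ((2 * x / t : ℝ) : ℂ)))) x := by
  unfold Ef
  have h := ((hasDerivAt_S_x x t).const_mul zz).const_sub (Gm * ((Real.log t : ℝ) : ℂ))
  exact h.cexp

theorem hasDerivAt_Ef_t {t : ℝ} (ht : 0 < t) (x : ℝ) :
    HasDerivAt (fun s : ℝ => Ef x s) (Ef x t * (Gm * ((1 / t : ℝ) : ℂ) - zz * ((-(x ^ 2 / t ^ 2) : ℝ) : ℂ))) t := by
  unfold Ef
  have h1 : HasDerivAt (fun s : ℝ => ((Real.log s : ℝ) : ℂ)) ((1 / t : ℝ) : ℂ) t := by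
    have := (Real.hasDerivAt_log ht.ne').ofReal_comp
    simpa using this
  have h := (h1.const_mul Gm).sub ((hasDerivAt_S_t ht.ne' x).const_mul zz)
  exact h.cexp

theorem hasDerivAt_w_x {t : ℝ} (ht : 0 < t) (x : ℝ) : HasDerivAt (fun y : ℝ => w y t) (wx x t) x := by
  have h1 : HasDerivAt (fun y : ℝ => ((y / t : ℝ) : ℂ)) ((1 / t : ℝ) : ℂ) x :=
    ((hasDerivAt_id x).div_const t).ofReal_comp
  have h2 := ((hasDerivAt_S_x x t).const_mul (2 * zz * cc)).const_sub (2 * (cc - zz))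
  have h := (h1.mul h2).mul (hasDerivAt_Ef_x x t)
  have htc : (t : ℂ) ≠ 0 := by exact_mod_cast ht.ne'
  refine h.congr_deriv ?_
  simp only [Pi.mul_apply, wx, Den]
  push_cast
  field_simp
  ring

theorem hasDerivAt_G_x {t : ℝ} (ht : 0 < t) (x : ℝ) : HasDerivAt (fun y : ℝ => GG y t) (Gx x t) x := by
  have hS := hasDerivAt_S_x x t
  have h2 : HasDerivAt (fun y : ℝ => Num (y ^ 2 / t))
      ((Gm * cc - cc + zz) * ((2 * x / t : ℝ) : ℂ) + zz * cc * (2 * ((x ^ 2 / t : ℝ) : ℂ) * ((2 * x / t : ℝ) : ℂ))) x := by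
    unfold Num
    have h3 := (hS.const_mul (Gm * cc - cc + zz)).const_add Gm
    have h4 := (hS.pow 2).const_mul (zz * cc)
    exact (h3.add h4).congr_deriv (by push_cast; ring)
  have h := (h2.const_mul ((1 / t : ℝ) : ℂ)).mul (hasDerivAt_Ef_x x t)
  have htc : (t : ℂ) ≠ 0 := by exact_mod_cast ht.ne'
  refine h.congr_deriv ?_
  simp only [Gx, Num]
  push_cast
  field_simp
  ring

theorem hasDerivAt_w_t {t : ℝ} (ht : 0 < t) (x : ℝ) : HasDerivAt (fun s : ℝ => w x s) (Gx x t) t := by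
  have h1 : HasDerivAt (fun s : ℝ => ((x / s : ℝ) : ℂ)) ((-(x / t ^ 2) : ℝ) : ℂ) t := by
    have : HasDerivAt (fun s : ℝ => x / s) (-(x / t ^ 2)) t := by
      have h := (hasDerivAt_inv ht.ne').const_mul x
      simp only [div_eq_mul_inv]
      exact h.congr_deriv (by ring)
    exact this.ofReal_comp
  have h2 := ((hasDerivAt_S_t ht.ne' x).const_mul (2 * zz * cc)).const_sub (2 * (cc - zz))
  have h := (h1.mul h2).mul (hasDerivAt_Ef_t ht x)
  have htc : (t : ℂ) ≠ 0 := by exact_mod_cast ht.ne'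
  refine h.congr_deriv ?_
  simp only [Pi.mul_apply, Gx, Num]
  push_cast
  field_simp
  ring

theorem GG_eq {x t : ℝ} (ht : 0 < t) : GG x t = (Num (x ^ 2 / t) / Den (x ^ 2 / t)) * wx x t := by
  unfold GG wx
  have := Den_ne (S := x ^ 2 / t) (by positivity)
  field_simp

end

end Pool.Agent.H133R3.Par
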